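import Pool.Agent.R121.SignedEx

set_option autoImplicit false

/-!
# Signed-permutation Wilf equivalence of `12...k` and `213...(k-2)k(k-1)`
-/

namespace Pool.Agent.Results.MP_689636_co.SignedWilf

open Finset Pool.Agent.R121 Pool.Agent.R121.SignedEx Pool.Agent.R121.LowerMoebius

/-- the set `[±n] = {-n, ..., -1, 1, ..., n}` -/
abbrev PM (n : ℕ) : Type := {i : ℤ // i ≠ 0 ∧ -(n : ℤ) ≤ i ∧ i ≤ n}

/-- `w(-i) = -w(i)` for all `i` -/
def IsSigned {n : ℕ} (w : Equiv.Perm (PM n)) : Prop :=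
  ∀ i j : PM n, (j : ℤ) = -(i : ℤ) → (w j : ℤ) = -(w i : ℤ)

/-- `w` contains the pattern with one-line notation `π` -/
def Contains {n k : ℕ} (π : Fin k → ℕ) (w : Equiv.Perm (PM n)) : Prop :=
  ∃ a : Fin k → PM n, StrictMono a ∧ ∀ r s, w (a r) < w (a s) ↔ π r < π s

/-- `|B_n(π)|` -/
noncomputable def B (n : ℕ) {k : ℕ} (π : Fin k → ℕ) : ℕ :=
  Nat.card {w : Equiv.Perm (PM n) // IsSigned w ∧ ¬ Contains π w}

/-- `|B_n^j(π)|`: exactly `j` indices `i > 0` with `w(i) > 0` -/
noncomputable def Bj (n j : ℕ) {k : ℕ} (π : Fin k → ℕ) : ℕ :=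
  Nat.card {w : Equiv.Perm (PM n) // IsSigned w ∧ ¬ Contains π w ∧
    Nat.card {i : PM n // 0 < (i : ℤ) ∧ 0 < (w i : ℤ)} = j}

/-- `12...k` -/
def iota (k : ℕ) (i : Fin k) : ℕ := i + 1

/-- `213...(k-2)k(k-1)` -/
def tau (k : ℕ) (i : Fin k) : ℕ :=
  if (i : ℕ) = 0 then 2 else if (i : ℕ) = 1 then 1 else if (i : ℕ) = k - 2 then k
  else if (i : ℕ) = k - 1 then k - 1 else i + 1

/-- both words -/
def word (t : Bool) (k i : ℕ) : ℕ :=
  if t = true then i + 1 else
  if i = 0 then 2 else if i = 1 then 1 else if i = k - 2 then k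
  else if i = k - 1 then k - 1 else i + 1

/-- occurrences in terms of functions -/
def Occ (t : Bool) (N m : ℕ) (f : ℕ → ℕ) : Prop :=
  ∃ g : ℕ → ℕ, (∀ i < m + 4, g i < N) ∧ (∀ i j, i < j → j < m + 4 → g i < g j) ∧
    ∀ i < m + 4, ∀ j < m + 4, f (g i) < f (g j) ↔ word t (m + 4) i < word t (m + 4) j

/-- the identity pattern -/
def idp (m : ℕ) (s : Fin m) : ℕ := s

lemma w0 (t : Bool) (m : ℕ) : word t (m + 4) 0 = if t = true then 1 else 2 := by
  cases t <;> simp [word]

lemma w1 (t : Bool) (m : ℕ) : word t (m + 4) 1 = if t = true then 2 else 1 := by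
  cases t <;> simp [word]

lemma wX (t : Bool) {m s : ℕ} (hs : s < m) : word t (m + 4) (s + 2) = s + 3 := by
  cases t
  · unfold word
    rw [if_neg (by decide), if_neg (by omega), if_neg (by omega), if_neg (by omega),
      if_neg (by omega)]
  · simp [word]

lemma w2 (t : Bool) (m : ℕ) : word t (m + 4) (m + 2) = if t = true then m + 3 else m + 4 := by
  cases t
  · unfold word
    rw [if_neg (by decide), if_neg (by omega), if_neg (by omega), if_pos (by omega)]
    simp
  · simp [word]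

lemma w3 (t : Bool) (m : ℕ) : word t (m + 4) (m + 3) = if t = true then m + 4 else m + 3 := by
  cases t
  · unfold word
    rw [if_neg (by decide), if_neg (by omega), if_neg (by omega), if_neg (by omega),
      if_pos (by omega)]
    simp
  · simp [word]

lemma cases5 {m : ℕ} (i : ℕ) (hi : i < m + 4) :
    i = 0 ∨ i = 1 ∨ (∃ s, s < m ∧ i = s + 2) ∨ i = m + 2 ∨ i = m + 3 := by
  by_cases h1 : 2 ≤ i ∧ i < m + 2
  · right; right; left
    exact ⟨i - 2, by omega, by omega⟩
  · omega

lemma word_inj {t : Bool} {m i j : ℕ} (hi : i < m + 4) (hj : j < m + 4)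
    (h : word t (m + 4) i = word t (m + 4) j) : i = j := by
  rcases cases5 i hi with hi | hi | ⟨s, hs, hi⟩ | hi | hi <;>
    rcases cases5 (m := m) j hj with hj | hj | ⟨u, hu, hj⟩ | hj | hj <;>
    subst hi <;> subst hj <;>
    (try rw [wX t hs] at h) <;> (try rw [wX t hu] at h) <;>
    (try simp only [w0, w1, w2, w3] at h) <;> (try split_ifs at h) <;> omega

lemma occ_fwd {t : Bool} {N m : ℕ} (hm : 0 < m) {f : ℕ → ℕ} (hf : Sym N f)
    (hlt : ∀ i < N, f i < N) (h : Occ t N m f) : ∃ p q, E N (idp m) f p q ∧ T t f p ∧ T t f q := by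
  obtain ⟨g, hN, hg, hp⟩ := h
  have hup : ∀ i j, 2 ≤ i → i < j → j < m + 2 → f (g i) < f (g j) := by
    intro i j h1 h2 h3
    rw [hp i (by omega) j (by omega)]
    have e1 := wX t (m := m) (s := i - 2) (by omega)
    have e2 := wX t (m := m) (s := j - 2) (by omega)
    rw [show i - 2 + 2 = i by omega] at e1
    rw [show j - 2 + 2 = j by omega] at e2
    rw [e1, e2]
    omega
  have hup' : ∀ i j, 2 ≤ i → i ≤ j → j < m + 2 → f (g i) ≤ f (g j) := by
    intro i j h1 h2 h3
    rcases lt_or_eq_of_le h2 with h | h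
    · exact (hup i j h1 h h3).le
    · rw [h]
  have hg' : ∀ i j, i ≤ j → j < m + 4 → g i ≤ g j := by
    intro i j h1 h2
    rcases lt_or_eq_of_le h1 with h | h
    · exact (hg i j h h2).le
    · rw [h]
  refine ⟨(g 2, f (g 2)), (N - 1 - g (m + 1), N - 1 - f (g (m + 1))), ?_, ?_, ?_⟩
  · refine ⟨fun s => g (s + 2), ?_, ?_, ?_⟩
    · intro s u hsu
      rw [Fin.lt_def] at hsu
      exact hg _ _ (by omega) (by omega)
    · intro s
      have h1 := hg' 2 (s + 2) (by omega) (by omega)
      have h2 := hg' (s + 2) (m + 1) (by omega) (by omega)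
      have h3 := hup' 2 (s + 2) (by omega) (by omega) (by omega)
      have h4 := hup' (s + 2) (m + 1) (by omega) (by omega) (by omega)
      have h5 := hN (m + 1) (by omega)
      have h6 := hlt _ h5
      simp only
      omega
    · intro s u
      simp only [idp]
      rw [hp _ (by omega) _ (by omega), wX t s.2, wX t u.2]
      omega
  · refine ⟨g 0, g 1, hg 0 1 (by omega) (by omega), hg 1 2 (by omega) (by omega), ?_, ?_, ?_⟩
    · simp only
      rw [hp 0 (by omega) 2 (by omega), w0, wX t (s := 0) hm]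
      split_ifs <;> omega
    · simp only
      rw [hp 1 (by omega) 2 (by omega), w1, wX t (s := 0) hm]
      split_ifs <;> omega
    · rw [hp 0 (by omega) 1 (by omega), hp 1 (by omega) 0 (by omega)]
      cases t <;> simp [word]
  · have a1 := hN (m + 2) (by omega)
    have a2 := hN (m + 3) (by omega)
    have a0 := hN (m + 1) (by omega)
    have b1 := hf _ a1
    have b2 := hf _ a2
    have c0 := hlt _ a0
    have c1 := hlt _ a1
    have c2 := hlt _ a2
    have d1 := hg (m + 2) (m + 3) (by omega) (by omega)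
    have d2 := hg (m + 1) (m + 2) (by omega) (by omega)
    have e0 := wX t (m := m) (s := m - 1) (by omega)
    rw [show m - 1 + 2 = m + 1 by omega] at e0
    have e1 : f (g (m + 1)) < f (g (m + 2)) := by
      rw [hp _ (by omega) _ (by omega), e0, w2]
      split_ifs <;> omega
    have e2 : f (g (m + 1)) < f (g (m + 3)) := by
      rw [hp _ (by omega) _ (by omega), e0, w3]
      split_ifs <;> omega
    refine ⟨N - 1 - g (m + 3), N - 1 - g (m + 2), by omega, by simp only; omega, ?_, ?_, ?_⟩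
    · simp only
      rw [b2]
      omega
    · simp only
      rw [b1]
      omega
    · rw [b1, b2]
      have e3 : f (g (m + 2)) < f (g (m + 3)) ↔ word t (m + 4) (m + 2) < word t (m + 4) (m + 3) :=
        hp _ (by omega) _ (by omega)
      have e4 : f (g (m + 3)) < f (g (m + 2)) ↔ word t (m + 4) (m + 3) < word t (m + 4) (m + 2) :=
        hp _ (by omega) _ (by omega)
      cases t
      · simp only [Bool.false_eq_true, if_false]
        have : f (g (m + 3)) < f (g (m + 2)) := by
          rw [e4, w2, w3]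
          simp
        omega
      · simp only [if_true]
        have : f (g (m + 2)) < f (g (m + 3)) := by
          rw [e3, w2, w3]
          simp
        omega

lemma occ_bwd {t : Bool} {N m : ℕ} (hm : 0 < m) {f : ℕ → ℕ} (hf : Sym N f)
    (h : ∃ p q, E N (idp m) f p q ∧ T t f p ∧ T t f q) : Occ t N m f := by
  obtain ⟨p, q, ⟨X, hX, hb, hpat⟩, ⟨a, b, a1, a2, a3, a4, a5⟩, ⟨c, d, c1, c2, c3, c4, c5⟩⟩ := h
  have hfX : ∀ s u, s < u → f (X s) < f (X u) := by
    intro s u hsu
    rw [hpat]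
    exact hsu
  have hb0 := hb ⟨0, hm⟩
  have hc := hf c (by omega)
  have hd := hf d (by omega)
  let XX : ℕ → ℕ := fun i => if h : i < m then X ⟨i, h⟩ else 0
  have hXX : ∀ i, i < m → p.1 ≤ XX i ∧ XX i + q.1 < N ∧ p.2 ≤ f (XX i) ∧ f (XX i) + q.2 < N := by
    intro i hi
    simp only [XX, dif_pos hi]
    exact hb ⟨i, hi⟩
  have hXm : ∀ i j, i < j → j < m → XX i < XX j ∧ f (XX i) < f (XX j) := by
    intro i j hij hj
    have hi : i < m := by omega
    simp only [XX, dif_pos hi, dif_pos hj]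
    exact ⟨hX (show (⟨i, hi⟩ : Fin m) < ⟨j, hj⟩ from hij), hfX _ _ (show (⟨i, hi⟩ : Fin m) < ⟨j, hj⟩ from hij)⟩
  let g : ℕ → ℕ := fun i => if i = 0 then a else if i = 1 then b else if i < m + 2 then XX (i - 2)
    else if i = m + 2 then N - 1 - d else N - 1 - c
  have g0 : g 0 = a := by simp [g]
  have g1 : g 1 = b := by simp [g]
  have gX : ∀ i, i < m → g (i + 2) = XX i := by
    intro i hi
    simp only [g]
    rw [if_neg (by omega), if_neg (by omega), if_pos (by omega)]
    rfl
  have g2 : g (m + 2) = N - 1 - d := by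
    simp only [g]
    rw [if_neg (by omega), if_neg (by omega), if_neg (by omega)]
    simp
  have g3 : g (m + 3) = N - 1 - c := by
    simp only [g]
    rw [if_neg (by omega), if_neg (by omega), if_neg (by omega), if_neg (by omega)]
  have hmono : ∀ i j, i < j → j < m + 4 → g i < g j := by
    intro i j hij hj
    rcases cases5 (m := m) i (by omega) with hi | hi | ⟨s, hs, hi⟩ | hi | hi <;>
    rcases cases5 (m := m) j hj with hj' | hj' | ⟨u, hu, hj'⟩ | hj' | hj' <;>
    subst hi <;> subst hj' <;>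
    (try rw [gX s hs]) <;> (try rw [gX u hu]) <;> (try rw [g0]) <;> (try rw [g1]) <;>
    (try rw [g2]) <;> (try rw [g3]) <;> (try have w1 := hXX s hs) <;> (try have w2 := hXX u hu) <;>
    (try omega)
    exact (hXm s u (by omega) hu).1
  have hval : ∀ i j, i < m + 4 → j < m + 4 → word t (m + 4) i < word t (m + 4) j →
      f (g i) < f (g j) := by
    intro i j hi' hj' hw
    cases t
    · simp only [Bool.false_eq_true, if_false] at a5 c5
      rcases cases5 (m := m) i hi' with hi | hi | ⟨s, hs, hi⟩ | hi | hi <;>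
      rcases cases5 (m := m) j hj' with hj | hj | ⟨u, hu, hj⟩ | hj | hj <;>
      subst hi <;> subst hj <;>
      (try rw [gX s hs]) <;> (try rw [gX u hu]) <;> (try rw [g0]) <;> (try rw [g1]) <;>
      (try rw [g2]) <;> (try rw [g3]) <;> (try rw [hc]) <;> (try rw [hd]) <;>
      (try have v1 := hXX s hs) <;> (try have v2 := hXX u hu) <;>
      (try rw [wX _ hs] at hw) <;> (try rw [wX _ hu] at hw) <;>
      (try simp only [w0, w1, w2, w3, Bool.false_eq_true, if_false] at hw) <;>
      (try omega)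
      exact (hXm s u (by omega) hu).2
    · simp only [if_true] at a5 c5
      rcases cases5 (m := m) i hi' with hi | hi | ⟨s, hs, hi⟩ | hi | hi <;>
      rcases cases5 (m := m) j hj' with hj | hj | ⟨u, hu, hj⟩ | hj | hj <;>
      subst hi <;> subst hj <;>
      (try rw [gX s hs]) <;> (try rw [gX u hu]) <;> (try rw [g0]) <;> (try rw [g1]) <;>
      (try rw [g2]) <;> (try rw [g3]) <;> (try rw [hc]) <;> (try rw [hd]) <;>
      (try have v1 := hXX s hs) <;> (try have v2 := hXX u hu) <;>
      (try rw [wX _ hs] at hw) <;> (try rw [wX _ hu] at hw) <;>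
      (try simp only [w0, w1, w2, w3, if_true] at hw) <;>
      (try omega)
      exact (hXm s u (by omega) hu).2
  refine ⟨g, ?_, hmono, ?_⟩
  · intro i hi
    rcases cases5 i hi with hi | hi | ⟨s, hs, hi⟩ | hi | hi <;> subst hi
    · rw [g0]; omega
    · rw [g1]; omega
    · rw [gX s hs]; have := hXX s hs; omega
    · rw [g2]; omega
    · rw [g3]; omega
  · intro i hi j hj
    refine ⟨fun h => ?_, hval i j hi hj⟩
    by_contra hc
    rcases lt_or_eq_of_le (not_lt.1 hc) with h1 | h1
    · have := hval j i hj hi h1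
      omega
    · have := word_inj hj hi h1
      subst this
      omega

lemma occ_iff {t : Bool} {n m : ℕ} (hm : 0 < m) {σ : Equiv.Perm (Fin (2 * n))}
    (hf : Sym (2 * n) (fn σ)) : ¬ Occ t (2 * n) m (fn σ) ↔
      Cond (2 * n) (idp m) (fn σ) (DD (2 * n) t (fn σ)) := by
  constructor
  · intro h p q hE
    by_contra hc
    push Not at hc
    have hb : p.1 + q.1 < 2 * n ∧ p.2 + q.2 < 2 * n := by
      obtain ⟨X, hX, hb, -⟩ := hE
      have := hb ⟨0, hm⟩
      omega
    apply h
    apply occ_bwd hm hf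
    refine ⟨p, q, hE, ?_, ?_⟩
    · by_contra h1
      exact hc.1 (mem_DD.2 ⟨by omega, h1⟩)
    · by_contra h1
      exact hc.2 (mem_DD.2 ⟨by omega, h1⟩)
  · intro h ho
    obtain ⟨p, q, hE, hp, hq⟩ := occ_fwd hm hf (fun i hi => fn_lt σ hi) ho
    rcases h p q hE with h1 | h1
    · exact (mem_DD.1 h1).2 hp
    · exact (mem_DD.1 h1).2 hq

open Classical in
/-- the refined equality for symmetric permutations -/
theorem count_eq {m : ℕ} (hm : 0 < m) (n : ℕ) (P : ℕ → Prop) :
    ((W (2 * n)).filter fun σ => ¬ Occ true (2 * n) m (fn σ) ∧ P (pos n (fn σ))).card =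
    ((W (2 * n)).filter fun σ => ¬ Occ false (2 * n) m (fn σ) ∧ P (pos n (fn σ))).card := by
  have key : ∀ t : Bool,
      (((W (2 * n)).filter fun σ => ¬ Occ t (2 * n) m (fn σ) ∧ P (pos n (fn σ))).card : ℤ) =
      ∑ σ ∈ W (2 * n), (if P (pos n (fn σ)) then (1 : ℤ) else 0) *
        gg (2 * n) (idp m) (fn σ) (DD (2 * n) t (fn σ)) := by
    intro t
    rw [Finset.card_filter]
    push_cast
    apply Finset.sum_congr rfl
    intro σ hσ
    rw [mem_W] at hσ
    have ho := occ_iff (t := t) hm hσ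
    unfold gg
    by_cases h1 : Cond (2 * n) (idp m) (fn σ) (DD (2 * n) t (fn σ))
    · have h3 := ho.2 h1
      by_cases h2 : P (pos n (fn σ)) <;> simp [h1, h2, h3]
    · have h3 : Occ t (2 * n) m (fn σ) := by
        by_contra h4
        exact h1 (ho.1 h4)
      by_cases h2 : P (pos n (fn σ)) <;> simp [h1, h2, h3]
  have h := main_sum (N := 2 * n) hm (α := idp m) (fun σ => if P (pos n (fn σ)) then (1 : ℤ) else 0)
    (by
      intro D _ hO _ σ ρ h1 h2 h3
      rw [pos_inv hO h1 h2 h3])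
  rw [← key, ← key] at h
  exact_mod_cast h

/-! ### From `{0, ..., 2n-1}` to `[±n]` -/

/-- the order isomorphism -/
def eqv (n : ℕ) : Fin (2 * n) ≃ PM n where
  toFun a := ⟨if (a : ℕ) < n then (a : ℤ) - n else (a : ℤ) - n + 1, by
    have := a.2
    split_ifs <;> omega⟩
  invFun i := ⟨if (i : ℤ) < 0 then ((i : ℤ) + n).toNat else ((i : ℤ) + n - 1).toNat, by
    have := i.2
    split_ifs <;> omega⟩
  left_inv a := by
    have := a.2
    apply Fin.ext
    simp only
    split_ifs <;> omega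
  right_inv i := by
    have := i.2
    apply Subtype.ext
    simp only
    split_ifs <;> omega

lemma eqv_val {n : ℕ} (a : Fin (2 * n)) :
    ((eqv n a : PM n) : ℤ) = if (a : ℕ) < n then (a : ℤ) - n else (a : ℤ) - n + 1 := rfl

lemma eqv_lt {n : ℕ} (a b : Fin (2 * n)) : eqv n a < eqv n b ↔ (a : ℕ) < b := by
  rw [← Subtype.coe_lt_coe, eqv_val, eqv_val]
  split_ifs <;> omega

lemma eqv_neg {n : ℕ} (a b : Fin (2 * n)) :
    ((eqv n b : PM n) : ℤ) = -((eqv n a : PM n) : ℤ) ↔ (b : ℕ) = 2 * n - 1 - a := by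
  rw [eqv_val, eqv_val]
  have := a.2
  have := b.2
  split_ifs <;> omega

lemma eqv_pos {n : ℕ} (a : Fin (2 * n)) : 0 < ((eqv n a : PM n) : ℤ) ↔ n ≤ (a : ℕ) := by
  rw [eqv_val]
  split_ifs <;> omega

lemma signed_iff {n : ℕ} (σ : Equiv.Perm (Fin (2 * n))) :
    IsSigned ((eqv n).permCongr σ) ↔ Sym (2 * n) (fn σ) := by
  constructor
  · intro h a ha
    have h1 := h (eqv n ⟨a, ha⟩) (eqv n ⟨2 * n - 1 - a, by omega⟩) (by
      rw [eqv_neg])
    rw [Equiv.permCongr_apply, Equiv.permCongr_apply, Equiv.symm_apply_apply,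
      Equiv.symm_apply_apply, eqv_neg] at h1
    have h2 : fn σ a = _ := fn_fin σ ⟨a, ha⟩
    have h3 : fn σ (2 * n - 1 - a) = _ := fn_fin σ ⟨2 * n - 1 - a, by omega⟩
    rw [h2, h3]
    exact h1
  · intro h i j hij
    obtain ⟨a, rfl⟩ := (eqv n).surjective i
    obtain ⟨b, rfl⟩ := (eqv n).surjective j
    rw [eqv_neg] at hij
    rw [Equiv.permCongr_apply, Equiv.permCongr_apply, Equiv.symm_apply_apply,
      Equiv.symm_apply_apply, eqv_neg]
    have h1 := h a a.2
    rw [← hij, fn_fin, fn_fin] at h1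
    exact h1

lemma contains_iff {n m : ℕ} (t : Bool) (π : Fin (m + 4) → ℕ)
    (hπ : ∀ r, π r = word t (m + 4) r) (σ : Equiv.Perm (Fin (2 * n))) :
    Contains π ((eqv n).permCongr σ) ↔ Occ t (2 * n) m (fn σ) := by
  constructor
  · rintro ⟨a, ha, hp⟩
    have hg : ∀ i (h : i < m + 4), (if h : i < m + 4 then ((eqv n).symm (a ⟨i, h⟩) : ℕ) else 0) =
        ((eqv n).symm (a ⟨i, h⟩) : ℕ) := fun i h => dif_pos h
    refine ⟨fun i => if h : i < m + 4 then ((eqv n).symm (a ⟨i, h⟩) : ℕ) else 0, ?_, ?_, ?_⟩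
    · intro i hi
      simp only
      rw [hg i hi]
      exact Fin.is_lt _
    · intro i j hij hj
      simp only
      rw [hg i (by omega), hg j hj, ← eqv_lt, Equiv.apply_symm_apply, Equiv.apply_symm_apply]
      exact ha (show (⟨i, by omega⟩ : Fin (m + 4)) < ⟨j, hj⟩ from hij)
    · intro i hi j hj
      simp only
      rw [hg i hi, hg j hj, fn_fin, fn_fin, ← eqv_lt]
      have h1 := hp ⟨i, hi⟩ ⟨j, hj⟩
      rw [Equiv.permCongr_apply, Equiv.permCongr_apply, hπ, hπ] at h1
      exact h1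
  · rintro ⟨g, hN, hg, hp⟩
    refine ⟨fun r => eqv n ⟨g r, hN r r.2⟩, ?_, ?_⟩
    · intro r s hrs
      simp only
      rw [eqv_lt]
      exact hg r s hrs s.2
    · intro r s
      rw [Equiv.permCongr_apply, Equiv.permCongr_apply, Equiv.symm_apply_apply,
        Equiv.symm_apply_apply, eqv_lt, hπ, hπ, ← hp r r.2 s s.2, ← fn_fin, ← fn_fin]

lemma pos_eq {n : ℕ} (σ : Equiv.Perm (Fin (2 * n))) :
    Nat.card {i : PM n // 0 < (i : ℤ) ∧ 0 < ((eqv n).permCongr σ i : ℤ)} = pos n (fn σ) := by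
  classical
  unfold pos
  rw [← Fintype.card_coe, ← Nat.card_eq_fintype_card]
  apply Nat.card_congr
  refine ⟨fun i => ⟨((eqv n).symm i.1 : ℕ), ?_⟩, fun a => ⟨eqv n ⟨a.1, ?_⟩, ?_⟩, ?_, ?_⟩
  · obtain ⟨i, h1, h2⟩ := i
    obtain ⟨b, rfl⟩ := (eqv n).surjective i
    rw [Equiv.permCongr_apply, Equiv.symm_apply_apply] at h2
    rw [eqv_pos] at h1 h2
    simp only [Equiv.symm_apply_apply, mem_filter, mem_range]
    rw [fn_fin]
    exact ⟨b.2, h1, h2⟩
  · have := a.2
    rw [mem_filter, mem_range] at this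
    exact this.1
  · obtain ⟨a, ha⟩ := a
    rw [mem_filter, mem_range] at ha
    rw [Equiv.permCongr_apply, Equiv.symm_apply_apply, eqv_pos, eqv_pos]
    have h1 : fn σ a = _ := fn_fin σ ⟨a, ha.1⟩
    rw [h1] at ha
    exact ha.2
  · intro i
    apply Subtype.ext
    simp
  · intro a
    apply Subtype.ext
    simp

lemma card_eq {n m : ℕ} (t : Bool) (π : Fin (m + 4) → ℕ) (hπ : ∀ r, π r = word t (m + 4) r)
    (P : ℕ → Prop) [DecidablePred fun σ : Equiv.Perm (Fin (2 * n)) =>
      ¬ Occ t (2 * n) m (fn σ) ∧ P (pos n (fn σ))] :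
    Nat.card {w : Equiv.Perm (PM n) // IsSigned w ∧ ¬ Contains π w ∧
      P (Nat.card {i : PM n // 0 < (i : ℤ) ∧ 0 < (w i : ℤ)})} =
    ((W (2 * n)).filter fun σ => ¬ Occ t (2 * n) m (fn σ) ∧ P (pos n (fn σ))).card := by
  classical
  rw [← Fintype.card_coe, ← Nat.card_eq_fintype_card]
  symm
  apply Nat.card_congr
  refine Equiv.subtypeEquiv (eqv n).permCongr ?_
  intro σ
  rw [mem_filter, mem_W, signed_iff, contains_iff t π hπ, pos_eq]

/-- **Q1 of MP_689636_co**: for every `k ≥ 5`, `12...k` and `213...(k-2)k(k-1)` are Wilf equivalent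
in signed permutations, also with a given number of positive entries. -/
theorem result (k : ℕ) (hk : 5 ≤ k) (n : ℕ) :
    B n (iota k) = B n (tau k) ∧ ∀ j, Bj n j (iota k) = Bj n j (tau k) := by
  classical
  obtain ⟨m, rfl⟩ : ∃ m, k = m + 4 := ⟨k - 4, by omega⟩
  have hm : 0 < m := by omega
  have h1 : ∀ r, iota (m + 4) r = word true (m + 4) r := fun r => by simp [iota, word]
  have h2 : ∀ r, tau (m + 4) r = word false (m + 4) r := fun r => by simp [tau, word]
  constructor
  · have e1 := card_eq (n := n) true (iota (m + 4)) h1 (fun _ => True)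
    have e2 := card_eq (n := n) false (tau (m + 4)) h2 (fun _ => True)
    have e3 := count_eq hm n (fun _ => True)
    simp only [and_true] at e1 e2 e3
    unfold B
    rw [e1, e2, e3]
  · intro j
    unfold Bj
    rw [card_eq (n := n) true (iota (m + 4)) h1 (fun x => x = j),
      card_eq (n := n) false (tau (m + 4)) h2 (fun x => x = j)]
    convert count_eq hm n (fun x => x = j)

end Pool.Agent.Results.MP_689636_co.SignedWilf
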